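import Pool.Graph.R_seed8.H535R3.JY

/-!
# Points with identity Poincare map: the linear recursion

Let `φ' = b + 2 μ cos t - ε sin φ` and suppose that the time `2 π` map is `x ↦ x + 2 π r`.  With a solution `φ`
we attach the `2 π` periodic functions `G = exp (μ cos t + (ε/2) ∫ cos φ + i (φ - r t)/2)` and
`H = exp (μ cos t + (ε/2) ∫ cos φ - i (φ + r t)/2)`.  Their Fourier coefficients satisfy a linear recursion
(`Rec2`), which does not depend on the solution.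
-/

set_option autoImplicit false
open Set Filter Topology Complex ComplexConjugate

namespace PLA79
open H535R3

/-! ### Fourier coefficients -/

lemma norm_e (k : ℤ) (t : ℝ) : ‖exp (-(I * k * t))‖ = 1 := by
  rw [show -(I * k * (t:ℂ)) = ((-(k * t) : ℝ) : ℂ) * I by push_cast; ring]
  exact norm_exp_ofReal_mul_I _

lemma cf_add {G H : ℝ → ℂ} (hG : Continuous G) (hH : Continuous H) (k : ℤ) :
    cf (fun t => G t + H t) k = cf G k + cf H k := by
  unfold cf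
  rw [← mul_add, ← intervalIntegral.integral_add]
  · congr 2; funext t; ring
  · exact Continuous.intervalIntegrable (by fun_prop) _ _
  · exact Continuous.intervalIntegrable (by fun_prop) _ _

lemma cf_mul (c : ℂ) (G : ℝ → ℂ) (k : ℤ) : cf (fun t => c * G t) k = c * cf G k := by
  unfold cf
  have h1 : ∫ t in (-Real.pi)..Real.pi, c * G t * exp (-(I * k * t)) =
      c * ∫ t in (-Real.pi)..Real.pi, G t * exp (-(I * k * t)) := by
    rw [← intervalIntegral.integral_const_mul]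
    congr 1; funext t; ring
  rw [h1]; ring

lemma cf_shift (m : ℤ) (G : ℝ → ℂ) (k : ℤ) : cf (fun t => exp (I * m * t) * G t) k = cf G (k - m) := by
  unfold cf
  congr 2; funext t
  have : exp (-(I * ((k - m : ℤ) : ℂ) * t)) = exp (I * m * t) * exp (-(I * k * t)) := by
    rw [← exp_add]; congr 1; push_cast; ring
  rw [this]; ring

lemma cf_deriv {G G1 : ℝ → ℂ} (hd : ∀ t, HasDerivAt G (G1 t) t) (hc : Continuous G1)
    (hper : ∀ t, G (t + 2 * Real.pi) = G t) (k : ℤ) : cf G1 k = I * k * cf G k := by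
  have hcont : Continuous G := continuous_iff_continuousAt.2 fun t => (hd t).continuousAt
  have hd2 : ∀ t : ℝ, HasDerivAt (fun t : ℝ => G t * exp (-(I * k * t)))
      (G1 t * exp (-(I * k * t)) + G t * (exp (-(I * k * t)) * (-(I * k)))) t := by
    intro t
    have h1 : HasDerivAt (fun t : ℝ => exp (-(I * k * (t : ℂ)))) (exp (-(I * k * t)) * (-(I * k))) t := by
      have h2 : HasDerivAt (fun t : ℝ => -(I * k * (t : ℂ))) (-(I * k * 1)) t :=
        ((ofRealCLM.hasDerivAt (x := t)).const_mul (I * k)).neg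
      rw [mul_one] at h2
      exact h2.cexp
    exact (hd t).mul h1
  have hint := intervalIntegral.integral_eq_sub_of_hasDerivAt (a := -Real.pi) (b := Real.pi)
    (fun t _ => hd2 t) (Continuous.intervalIntegrable (by fun_prop) _ _)
  have hbd : G Real.pi * exp (-(I * k * (Real.pi : ℝ))) =
      G (-Real.pi) * exp (-(I * k * ((-Real.pi : ℝ) : ℂ))) := by
    have h1 := hper (-Real.pi)
    have h2 := exp_per k (-Real.pi)
    rw [show -Real.pi + 2 * Real.pi = Real.pi by ring] at h1 h2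
    rw [h1, h2]
  rw [hbd, sub_self, intervalIntegral.integral_add] at hint
  rotate_left
  · exact Continuous.intervalIntegrable (by fun_prop) _ _
  · exact Continuous.intervalIntegrable (by fun_prop) _ _
  have h3 : ∫ t in (-Real.pi)..Real.pi, G t * (exp (-(I * k * t)) * (-(I * k))) =
      (-(I * k)) * ∫ t in (-Real.pi)..Real.pi, G t * exp (-(I * k * t)) := by
    rw [← intervalIntegral.integral_const_mul]
    congr 1; funext t; ring
  rw [h3] at hint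
  unfold cf
  linear_combination ((1 / (2 * Real.pi) : ℝ) : ℂ) * hint

/-! ### The recursion -/

/-- The recursion of the Fourier coefficients. -/
def Rec2 (μ e p q : ℝ) (g h : ℤ → ℂ) : Prop :=
  (∀ j : ℤ, (μ : ℂ) * g (j - 1) = ((j : ℂ) - p) * g j + I * e * h j) ∧
  (∀ j : ℤ, (μ : ℂ) * h (j + 1) = -((j : ℂ) + q) * h j - I * e * g j)

lemma Rec2.comb {μ e p q : ℝ} {g h g' h' : ℤ → ℂ} (H1 : Rec2 μ e p q g h) (H2 : Rec2 μ e p q g' h')
    (α β : ℂ) : Rec2 μ e p q (fun j => α * g j + β * g' j) (fun j => α * h j + β * h' j) := by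
  refine ⟨fun j => ?_, fun j => ?_⟩
  · linear_combination α * H1.1 j + β * H2.1 j
  · linear_combination α * H1.2 j + β * H2.2 j

/-- Reflection of the recursion. -/
lemma Rec2.refl {μ e p q : ℝ} {g h : ℤ → ℂ} (H1 : Rec2 μ e p q g h) :
    Rec2 μ (-e) q p (fun j => h (-j)) (fun j => g (-j)) := by
  refine ⟨fun j => ?_, fun j => ?_⟩
  · have := H1.2 (-j)
    simp only
    rw [show -(j - 1) = -j + 1 by ring]
    push_cast at this ⊢
    linear_combination this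
  · have := H1.1 (-j)
    simp only
    rw [show -(j + 1) = -j - 1 by ring]
    push_cast at this ⊢
    linear_combination this

/-- The determinant of two solutions. -/
def Wr (g h g' h' : ℤ → ℂ) (j : ℤ) : ℂ := g j * h' j - g' j * h j

lemma Wr_rec {μ e p q : ℝ} {g h g' h' : ℤ → ℂ} (H1 : Rec2 μ e p q g h) (H2 : Rec2 μ e p q g' h') (j : ℤ) :
    ((j : ℂ) + 1 - p) * Wr g h g' h' (j + 1) = -((j : ℂ) + q) * Wr g h g' h' j := by
  have a1 := H1.1 (j + 1)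
  have a2 := H2.1 (j + 1)
  have b1 := H1.2 j
  have b2 := H2.2 j
  rw [add_sub_cancel_right] at a1 a2
  push_cast at a1 a2
  unfold Wr
  linear_combination (-(h' (j + 1))) * a1 + h (j + 1) * a2 + g j * b2 - g' j * b1

/-- Bounds of polynomial decay. -/
def Dec (m : ℕ) (C : ℝ) (g : ℤ → ℂ) : Prop := ∀ j : ℤ, ‖g j‖ * (1 + |(j:ℝ)|) ^ m ≤ C

lemma Dec.nonneg {m : ℕ} {C : ℝ} {g : ℤ → ℂ} (h : Dec m C g) : 0 ≤ C :=
  le_trans (by positivity) (h 0)

lemma Dec.step {m : ℕ} {C : ℝ} {μ e p q : ℝ} {g h : ℤ → ℂ} (H1 : Rec2 μ e p q g h)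
    (hg : Dec m C g) (hh : Dec m C h) : ∃ D, Dec (m + 1) D g ∧ Dec (m + 1) D h := by
  have hC := hg.nonneg
  set J : ℝ := 2 * (|p| + |q| + 1) with hJ
  have hJ0 : 0 ≤ J := by positivity
  set D : ℝ := C * (1 + J) + 2 * (|μ| * (2 ^ m * C) + |e| * C) with hD
  have key : ∀ (x y : ℂ) (z : ℂ) (j : ℤ) (s : ℝ) (i : ℤ), |(j:ℝ)| ≤ |(i:ℝ)| + 1 → |s| ≤ |p| + |q| →
      ‖x‖ * (1 + |(j:ℝ)|) ^ m ≤ C → ‖y‖ * (1 + |(j:ℝ)|) ^ m ≤ C → ‖z‖ * (1 + |(i:ℝ)|) ^ m ≤ C →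
      |(j:ℝ) - s| * ‖x‖ ≤ |μ| * ‖z‖ + |e| * ‖y‖ → ‖x‖ * (1 + |(j:ℝ)|) ^ (m + 1) ≤ D := by
    intro x y z j s i hij hs hx hy hz hr
    have hz2 : ‖z‖ * (1 + |(j:ℝ)|) ^ m ≤ 2 ^ m * C := by
      have h1 : 1 + |(j:ℝ)| ≤ 2 * (1 + |(i:ℝ)|) := by
        have := abs_nonneg (i:ℝ)
        linarith
      calc ‖z‖ * (1 + |(j:ℝ)|) ^ m ≤ ‖z‖ * (2 * (1 + |(i:ℝ)|)) ^ m := by gcongr
        _ = 2 ^ m * (‖z‖ * (1 + |(i:ℝ)|) ^ m) := by rw [mul_pow]; ring
        _ ≤ 2 ^ m * C := by gcongr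
    rcases lt_or_ge |(j:ℝ)| J with hj | hj
    · calc ‖x‖ * (1 + |(j:ℝ)|) ^ (m + 1) = (‖x‖ * (1 + |(j:ℝ)|) ^ m) * (1 + |(j:ℝ)|) := by ring
        _ ≤ C * (1 + J) := by gcongr
        _ ≤ D := by
          have : 0 ≤ 2 * (|μ| * (2 ^ m * C) + |e| * C) := by positivity
          rw [hD]; linarith
    · have h2 : 1 + |(j:ℝ)| ≤ 2 * |(j:ℝ) - s| := by
        have h3 := abs_sub_abs_le_abs_sub (j:ℝ) s
        have h4 : 2 * (|s| + 1) ≤ |(j:ℝ)| := by rw [hJ] at hj; linarith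
        linarith
      calc ‖x‖ * (1 + |(j:ℝ)|) ^ (m + 1) = (1 + |(j:ℝ)|) * (‖x‖ * (1 + |(j:ℝ)|) ^ m) := by ring
        _ ≤ (2 * |(j:ℝ) - s|) * (‖x‖ * (1 + |(j:ℝ)|) ^ m) := by gcongr
        _ = 2 * ((|(j:ℝ) - s| * ‖x‖) * (1 + |(j:ℝ)|) ^ m) := by ring
        _ ≤ 2 * ((|μ| * ‖z‖ + |e| * ‖y‖) * (1 + |(j:ℝ)|) ^ m) := by gcongr
        _ = 2 * (|μ| * (‖z‖ * (1 + |(j:ℝ)|) ^ m) + |e| * (‖y‖ * (1 + |(j:ℝ)|) ^ m)) := by ring
        _ ≤ 2 * (|μ| * (2 ^ m * C) + |e| * C) := by gcongr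
        _ ≤ D := by
          have : 0 ≤ C * (1 + J) := by positivity
          rw [hD]; linarith
  refine ⟨D, fun j => ?_, fun j => ?_⟩
  · refine key (g j) (h j) (g (j - 1)) j p (j - 1) ?_ ?_ (hg j) (hh j) (hg (j - 1)) ?_
    · push_cast
      calc |(j:ℝ)| = |((j:ℝ) - 1) + 1| := by ring_nf
        _ ≤ |(j:ℝ) - 1| + |(1:ℝ)| := abs_add_le _ _
        _ = _ := by rw [abs_one]
    · have := abs_nonneg q; linarith
    · have h1 := H1.1 j
      have h2 : (((j:ℝ) - p : ℝ) : ℂ) * g j = μ * g (j - 1) - I * e * h j := by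
        push_cast; linear_combination -h1
      calc |(j:ℝ) - p| * ‖g j‖ = ‖(((j:ℝ) - p : ℝ) : ℂ) * g j‖ := by
            rw [norm_mul, Complex.norm_real, Real.norm_eq_abs]
        _ = ‖μ * g (j - 1) - I * e * h j‖ := by rw [h2]
        _ ≤ ‖μ * g (j - 1)‖ + ‖I * e * h j‖ := norm_sub_le _ _
        _ = |μ| * ‖g (j - 1)‖ + |e| * ‖h j‖ := by
            rw [norm_mul, norm_mul, norm_mul, Complex.norm_real, Complex.norm_real, norm_I, one_mul]; rfl
  · refine key (h j) (g j) (h (j + 1)) j (-q) (j + 1) ?_ ?_ (hh j) (hg j) (hh (j + 1)) ?_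
    · push_cast
      calc |(j:ℝ)| = |((j:ℝ) + 1) - 1| := by ring_nf
        _ ≤ |(j:ℝ) + 1| + |(1:ℝ)| := abs_sub _ _
        _ = _ := by rw [abs_one]
    · rw [abs_neg]; have := abs_nonneg p; linarith
    · have h1 := H1.2 j
      have h2 : (((j:ℝ) - (-q) : ℝ) : ℂ) * h j = -(μ * h (j + 1) + I * e * g j) := by
        push_cast; linear_combination h1
      calc |(j:ℝ) - (-q)| * ‖h j‖ = ‖(((j:ℝ) - (-q) : ℝ) : ℂ) * h j‖ := by
            rw [norm_mul, Complex.norm_real, Real.norm_eq_abs]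
        _ = ‖-(μ * h (j + 1) + I * e * g j)‖ := by rw [h2]
        _ ≤ ‖μ * h (j + 1)‖ + ‖I * e * g j‖ := by rw [norm_neg]; exact norm_add_le _ _
        _ = |μ| * ‖h (j + 1)‖ + |e| * ‖g j‖ := by
            rw [norm_mul, norm_mul, norm_mul, Complex.norm_real, Complex.norm_real, norm_I, one_mul]; rfl

lemma Dec.all {C : ℝ} {μ e p q : ℝ} {g h : ℤ → ℂ} (H1 : Rec2 μ e p q g h)
    (hg : ∀ j, ‖g j‖ ≤ C) (hh : ∀ j, ‖h j‖ ≤ C) (m : ℕ) : ∃ D, Dec m D g ∧ Dec m D h := by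
  induction m with
  | zero => exact ⟨C, fun j => by simpa using hg j, fun j => by simpa using hh j⟩
  | succ m ih =>
    obtain ⟨D, h1, h2⟩ := ih
    exact Dec.step H1 h1 h2

lemma Wr_zero_aux {μ e p q : ℝ} {g h g' h' : ℤ → ℂ} (H1 : Rec2 μ e p q g h) (H2 : Rec2 μ e p q g' h')
    (hpq : 0 < p + q) {C : ℝ} (d1 : Dec 1 C g) (d2 : Dec 1 C h) (d3 : Dec 1 C g') (d4 : Dec 1 C h')
    (j : ℤ) (hj : 0 ≤ 2 * (j:ℝ) + (q - p)) : Wr g h g' h' j = 0 := by
  set W := Wr g h g' h' with hW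
  set X : ℤ → ℝ := fun i => |(i:ℝ) - p| * ‖W i‖ with hX
  have hrec : ∀ i : ℤ, X (i + 1) = |(i:ℝ) + q| * ‖W i‖ := by
    intro i
    have h1 := Wr_rec H1 H2 i
    have h2 := congrArg norm h1
    rw [norm_mul, norm_mul, norm_neg] at h2
    have e1 : ((i : ℂ) + 1 - p) = (((i + 1 : ℤ) : ℝ) - p : ℝ) := by push_cast; ring
    have e2 : ((i : ℂ) + q) = (((i : ℝ) + q : ℝ) : ℂ) := by push_cast; ring
    rw [e1, e2, Complex.norm_real, Complex.norm_real] at h2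
    exact h2
  have hmono : ∀ i : ℤ, 0 ≤ 2 * (i:ℝ) + (q - p) → X i ≤ X (i + 1) := by
    intro i hi
    rw [hrec]
    simp only [hX]
    apply mul_le_mul_of_nonneg_right _ (norm_nonneg _)
    exact sq_le_sq.1 (by nlinarith)
  -- decay
  have hbd : ∀ i : ℤ, X i ≤ (|p| + 1) * (2 * C ^ 2) / (1 + |(i:ℝ)|) := by
    intro i
    have hC := d1.nonneg
    have hp : 0 < 1 + |(i:ℝ)| := by positivity
    have e1 := d1 i
    have e2 := d2 i
    have e3 := d3 i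
    have e4 := d4 i
    rw [pow_one] at e1 e2 e3 e4
    have hWn : ‖W i‖ * (1 + |(i:ℝ)|) ^ 2 ≤ 2 * C ^ 2 := by
      have h1 : ‖W i‖ ≤ ‖g i‖ * ‖h' i‖ + ‖g' i‖ * ‖h i‖ := by
        simp only [hW, Wr]
        refine (norm_sub_le _ _).trans ?_
        rw [norm_mul, norm_mul]
      calc ‖W i‖ * (1 + |(i:ℝ)|) ^ 2 ≤ (‖g i‖ * ‖h' i‖ + ‖g' i‖ * ‖h i‖) * (1 + |(i:ℝ)|) ^ 2 := by gcongr
        _ = (‖g i‖ * (1 + |(i:ℝ)|)) * (‖h' i‖ * (1 + |(i:ℝ)|)) +
            (‖g' i‖ * (1 + |(i:ℝ)|)) * (‖h i‖ * (1 + |(i:ℝ)|)) := by ring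
        _ ≤ C * C + C * C := by gcongr
        _ = 2 * C ^ 2 := by ring
    have hip : |(i:ℝ) - p| ≤ (|p| + 1) * (1 + |(i:ℝ)|) := by
      have h1 := abs_sub (i:ℝ) p
      have h2 := abs_nonneg (i:ℝ)
      have h3 := abs_nonneg p
      nlinarith
    rw [le_div_iff₀ hp]
    calc X i * (1 + |(i:ℝ)|) = |(i:ℝ) - p| * ‖W i‖ * (1 + |(i:ℝ)|) := rfl
      _ ≤ ((|p| + 1) * (1 + |(i:ℝ)|)) * ‖W i‖ * (1 + |(i:ℝ)|) := by gcongr
      _ = (|p| + 1) * (‖W i‖ * (1 + |(i:ℝ)|) ^ 2) := by ring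
      _ ≤ (|p| + 1) * (2 * C ^ 2) := by gcongr
  have hX0 : ∀ i : ℤ, 0 ≤ 2 * (i:ℝ) + (q - p) → X i = 0 := by
    intro i hi
    have h1 : ∀ n : ℕ, X i ≤ X (i + n) := by
      intro n
      induction n with
      | zero => simp
      | succ n ih =>
        refine ih.trans ?_
        have h2 := hmono (i + n) (by push_cast; have : (0:ℝ) ≤ n := n.cast_nonneg; linarith)
        rwa [show i + (n:ℤ) + 1 = i + ((n + 1 : ℕ) : ℤ) by push_cast; ring] at h2
    have h2 : Tendsto (fun n : ℕ => (|p| + 1) * (2 * C ^ 2) / (1 + |((i + n : ℤ):ℝ)|)) atTop (𝓝 0) := by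
      apply tendsto_const_nhds.div_atTop
      apply tendsto_atTop_mono (f := fun n : ℕ => (n:ℝ) - |(i:ℝ)|)
      · intro n
        have h3 : (n:ℝ) ≤ |((i + n : ℤ):ℝ)| + |(i:ℝ)| := by
          calc (n:ℝ) = |((i + n : ℤ):ℝ) - i| := by
                push_cast; rw [add_sub_cancel_left, abs_of_nonneg n.cast_nonneg]
            _ ≤ _ := abs_sub _ _
        linarith
      · exact tendsto_atTop_add_const_right _ _ tendsto_natCast_atTop_atTop
    have h3 : X i ≤ 0 := ge_of_tendsto' h2 fun n => (h1 n).trans (hbd _)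
    exact le_antisymm h3 (by positivity)
  have a1 := hX0 j hj
  have a2 := hX0 (j + 1) (by push_cast; linarith)
  rw [hrec] at a2
  rcases mul_eq_zero.1 a1 with h1 | h1
  · rcases mul_eq_zero.1 a2 with h2 | h2
    · rw [abs_eq_zero] at h1 h2
      linarith
    · exact norm_eq_zero.1 h2
  · exact norm_eq_zero.1 h1

/-- The determinant of two decaying solutions vanishes. -/
lemma Wr_zero {μ e p q : ℝ} {g h g' h' : ℤ → ℂ} (H1 : Rec2 μ e p q g h) (H2 : Rec2 μ e p q g' h')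
    (hpq : 0 < p + q) {C : ℝ} (d1 : Dec 1 C g) (d2 : Dec 1 C h) (d3 : Dec 1 C g') (d4 : Dec 1 C h')
    (j : ℤ) : Wr g h g' h' j = 0 := by
  rcases le_total 0 (2 * (j:ℝ) + (q - p)) with hj | hj
  · exact Wr_zero_aux H1 H2 hpq d1 d2 d3 d4 j hj
  · have hneg : ∀ {C : ℝ} {f : ℤ → ℂ}, Dec 1 C f → Dec 1 C (fun i => f (-i)) := by
      intro C f hf i
      have := hf (-i)
      push_cast at this
      rwa [abs_neg] at this
    have h1 := Wr_zero_aux H1.refl H2.refl (by linarith) (hneg d2) (hneg d1) (hneg d4) (hneg d3) (-j)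
      (by push_cast; linarith)
    unfold Wr at h1 ⊢
    simp only [neg_neg] at h1
    linear_combination -h1

/-- A combination vanishing at a given place. -/
lemma exists_comb {g h g' h' : ℤ → ℂ} {j : ℤ} (hW : Wr g h g' h' j = 0) :
    ∃ α β : ℂ, (α ≠ 0 ∨ β ≠ 0) ∧ α * g j + β * g' j = 0 ∧ α * h j + β * h' j = 0 := by
  unfold Wr at hW
  by_cases h1 : g j = 0
  · by_cases h2 : g' j = 0
    · by_cases h3 : h j = 0
      · exact ⟨1, 0, Or.inl one_ne_zero, by rw [h1]; ring, by rw [h3]; ring⟩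
      · exact ⟨-h' j, h j, Or.inr h3, by rw [h1, h2]; ring, by ring⟩
    · exact ⟨-g' j, g j, Or.inl (neg_ne_zero.2 h2), by ring, by linear_combination hW⟩
  · exact ⟨-g' j, g j, Or.inr h1, by ring, by linear_combination hW⟩

lemma Rec2.down {μ e p q : ℝ} (hμ : μ ≠ 0) {g h : ℤ → ℂ} (H : Rec2 μ e p q g h) {j : ℤ}
    (hg : g j = 0) (hh : h j = 0) (hj : (j:ℝ) - 1 + q ≠ 0) : g (j - 1) = 0 ∧ h (j - 1) = 0 := by
  have hμ' : (μ : ℂ) ≠ 0 := by exact_mod_cast hμ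
  have h1 := H.1 j
  rw [hg, hh, mul_zero, mul_zero, add_zero] at h1
  have h2 := (mul_eq_zero.1 h1).resolve_left hμ'
  refine ⟨h2, ?_⟩
  have h3 := H.2 (j - 1)
  rw [sub_add_cancel, hh, h2, mul_zero, mul_zero, sub_zero] at h3
  have h4 : -(((j - 1 : ℤ) : ℂ) + q) ≠ 0 := by
    rw [neg_ne_zero]
    have : (((j - 1 : ℤ) : ℂ) + q) = (((j:ℝ) - 1 + q : ℝ) : ℂ) := by push_cast; ring
    rw [this]; exact_mod_cast hj
  exact (mul_eq_zero.1 h3.symm).resolve_left h4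

lemma Rec2.up_h {μ e p q : ℝ} (hμ : μ ≠ 0) {g h : ℤ → ℂ} (H : Rec2 μ e p q g h) {j : ℤ}
    (hg : g j = 0) (hh : h j = 0) : h (j + 1) = 0 := by
  have hμ' : (μ : ℂ) ≠ 0 := by exact_mod_cast hμ
  have h1 := H.2 j
  rw [hg, hh, mul_zero, mul_zero, sub_zero] at h1
  exact (mul_eq_zero.1 h1).resolve_left hμ'

lemma Rec2.up {μ e p q : ℝ} (hμ : μ ≠ 0) {g h : ℤ → ℂ} (H : Rec2 μ e p q g h) {j : ℤ}
    (hg : g j = 0) (hh : h j = 0) (hj : (j:ℝ) + 1 - p ≠ 0) : g (j + 1) = 0 ∧ h (j + 1) = 0 := by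
  have h2 := H.up_h hμ hg hh
  refine ⟨?_, h2⟩
  have h3 := H.1 (j + 1)
  rw [add_sub_cancel_right, hg, h2, mul_zero, mul_zero, add_zero] at h3
  have h4 : (((j + 1 : ℤ) : ℂ) - p) ≠ 0 := by
    have : (((j + 1 : ℤ) : ℂ) - p) = (((j:ℝ) + 1 - p : ℝ) : ℂ) := by push_cast; ring
    rw [this]; exact_mod_cast hj
  exact (mul_eq_zero.1 h3.symm).resolve_left h4

end PLA79
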