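import Pool.Agent.Helper79.PLA.A

/-!
# Points with identity Poincare map: the gauge functions
-/

set_option autoImplicit false
open Set Filter Topology Complex ComplexConjugate

namespace PLA79
open H535R3

/-- The exponent: `s = 1` for `G`, `s = -1` for `H`. -/
noncomputable def ex (μ ε r s : ℝ) (φ : ℝ → ℝ) (t : ℝ) : ℂ :=
  ((μ * Real.cos t + ε / 2 * Cc φ t : ℝ) : ℂ) + I * (((s * φ t - r * t) / 2 : ℝ) : ℂ)

/-- The gauge functions. -/
noncomputable def Gf (μ ε r s : ℝ) (φ : ℝ → ℝ) (t : ℝ) : ℂ := exp (ex μ ε r s φ t)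

lemma ex_deriv {b μ ε : ℝ} {φ : ℝ → ℝ} (h : Sol b (2 * μ) ε φ) (r s t : ℝ) :
    HasDerivAt (ex μ ε r s φ) (((-(μ * Real.sin t) + ε / 2 * Real.cos (φ t) : ℝ) : ℂ) +
      I * (((s * (b + 2 * μ * Real.cos t - ε * Real.sin (φ t)) - r) / 2 : ℝ) : ℂ)) t := by
  have h1 : HasDerivAt (fun t => μ * Real.cos t + ε / 2 * Cc φ t)
      (-(μ * Real.sin t) + ε / 2 * Real.cos (φ t)) t := by
    refine (((Real.hasDerivAt_cos t).const_mul μ).add ((Cc_deriv h.cont t).const_mul (ε / 2))).congr_deriv ?_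
    ring
  have h2 : HasDerivAt (fun t => (s * φ t - r * t) / 2)
      ((s * (b + 2 * μ * Real.cos t - ε * Real.sin (φ t)) - r) / 2) t := by
    refine ((((h t).const_mul s).sub ((hasDerivAt_id t).const_mul r)).div_const 2).congr_deriv ?_
    ring
  exact h1.ofReal_comp.add (h2.ofReal_comp.const_mul I)

lemma ex_cont {b μ ε : ℝ} {φ : ℝ → ℝ} (h : Sol b (2 * μ) ε φ) (r s : ℝ) :
    Continuous (ex μ ε r s φ) :=
  continuous_iff_continuousAt.2 fun t => (ex_deriv h r s t).continuousAt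

lemma exp_it (t : ℝ) : exp (I * t) = Real.cos t + I * Real.sin t := by
  rw [mul_comm, exp_mul_I]; push_cast; ring

lemma exp_nit (t : ℝ) : exp (-(I * t)) = Real.cos t - I * Real.sin t := by
  rw [show -(I * (t:ℂ)) = ((-t : ℝ) : ℂ) * I by push_cast; ring, exp_mul_I]
  push_cast
  rw [Complex.cos_neg, Complex.sin_neg]; ring

lemma G_H {μ ε r : ℝ} {φ : ℝ → ℝ} (t : ℝ) :
    Gf μ ε r (-1) φ t = (Real.cos (φ t) - I * Real.sin (φ t)) * Gf μ ε r 1 φ t := by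
  rw [← exp_nit, Gf, Gf, ← exp_add]
  congr 1
  simp only [ex]; push_cast; ring

lemma H_G {μ ε r : ℝ} {φ : ℝ → ℝ} (t : ℝ) :
    Gf μ ε r 1 φ t = (Real.cos (φ t) + I * Real.sin (φ t)) * Gf μ ε r (-1) φ t := by
  rw [← exp_it, Gf, Gf, ← exp_add]
  congr 1
  simp only [ex]; push_cast; ring

/-- Equation of `G`. -/
lemma G_sol {b μ ε : ℝ} {φ : ℝ → ℝ} (h : Sol b (2 * μ) ε φ) (r t : ℝ) :
    HasDerivAt (Gf μ ε r 1 φ) (I * ((b - r) / 2 : ℝ) * Gf μ ε r 1 φ t +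
      (I * μ) * (exp (I * (1:ℤ) * t) * Gf μ ε r 1 φ t) + (ε / 2 : ℝ) * Gf μ ε r (-1) φ t) t := by
  refine (ex_deriv h r 1 t).cexp.congr_deriv ?_
  rw [G_H (r := r) (μ := μ) (ε := ε) (φ := φ) t, show I * ((1:ℤ):ℂ) * (t:ℂ) = I * t by push_cast; ring, exp_it]
  change Gf μ ε r 1 φ t * _ = _
  push_cast
  linear_combination (-(μ * Complex.sin t * Gf μ ε r 1 φ t)) * I_mul_I

/-- Equation of `H`. -/
lemma H_sol {b μ ε : ℝ} {φ : ℝ → ℝ} (h : Sol b (2 * μ) ε φ) (r t : ℝ) :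
    HasDerivAt (Gf μ ε r (-1) φ) (-(I * ((b + r) / 2 : ℝ)) * Gf μ ε r (-1) φ t +
      (-(I * μ)) * (exp (I * (-1:ℤ) * t) * Gf μ ε r (-1) φ t) + (ε / 2 : ℝ) * Gf μ ε r 1 φ t) t := by
  refine (ex_deriv h r (-1) t).cexp.congr_deriv ?_
  rw [H_G (r := r) (μ := μ) (ε := ε) (φ := φ) t,
    show I * ((-1:ℤ):ℂ) * (t:ℂ) = -(I * t) by push_cast; ring, exp_nit]
  change Gf μ ε r (-1) φ t * _ = _
  push_cast
  linear_combination (-(μ * Complex.sin t * Gf μ ε r (-1) φ t)) * I_mul_I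

/-- Data of a solution at a point with identity Poincare map. -/
structure Per (b μ ε : ℝ) (r : ℤ) (φ : ℝ → ℝ) : Prop where
  sol : Sol b (2 * μ) ε φ
  per : ∀ t, φ (t + 2 * Real.pi) = φ t + 2 * Real.pi * r
  C0 : ε / 2 * Cc φ (2 * Real.pi) = 0

lemma Per.Cc {b μ ε : ℝ} {r : ℤ} {φ : ℝ → ℝ} (h : Per b μ ε r φ) (t : ℝ) :
    ε / 2 * Cc φ (t + 2 * Real.pi) = ε / 2 * Cc φ t := by
  have hφ : Continuous φ := h.sol.cont
  have hd : ∀ t, HasDerivAt (fun t => H535R3.Cc φ (t + 2 * Real.pi) - H535R3.Cc φ t) 0 t := by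
    intro t
    have h1 := ((Cc_deriv hφ (t + 2 * Real.pi)).comp_add_const t (2 * Real.pi)).sub (Cc_deriv hφ t)
    refine h1.congr_deriv ?_
    rw [h.per, mul_comm (2 * Real.pi), Real.cos_add_int_mul_two_pi, sub_self]
  have h3 := is_const_of_deriv_eq_zero (fun t => (hd t).differentiableAt) (fun t => (hd t).deriv) t 0
  simp only [zero_add, Cc_zero, sub_zero] at h3
  have := h.C0
  rw [← h3] at this
  linarith

lemma Per.gf {b μ ε : ℝ} {r : ℤ} {φ : ℝ → ℝ} (h : Per b μ ε r φ) {s : ℝ} (hs : s = 1 ∨ s = -1) (t : ℝ) :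
    Gf μ ε r s φ (t + 2 * Real.pi) = Gf μ ε r s φ t := by
  rw [Gf, Gf, exp_eq_exp_iff_exists_int]
  rcases hs with rfl | rfl
  · refine ⟨0, ?_⟩
    rw [ex, ex, h.Cc, h.per, Real.cos_add_two_pi]
    push_cast; ring
  · refine ⟨-r, ?_⟩
    rw [ex, ex, h.Cc, h.per, Real.cos_add_two_pi]
    push_cast; ring

lemma Gf_cont {b μ ε : ℝ} {φ : ℝ → ℝ} (h : Sol b (2 * μ) ε φ) (r s : ℝ) : Continuous (Gf μ ε r s φ) :=
  (ex_cont h r s).cexp

/-- The Fourier coefficients satisfy the recursion. -/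
lemma Per.rec2 {b μ ε : ℝ} {r : ℤ} {φ : ℝ → ℝ} (h : Per b μ ε r φ) :
    Rec2 μ (ε / 2) ((b - r) / 2) ((b + r) / 2) (cf (Gf μ ε r 1 φ)) (cf (Gf μ ε r (-1) φ)) := by
  have hG := Gf_cont h.sol r 1
  have hH := Gf_cont h.sol r (-1)
  refine ⟨fun j => ?_, fun j => ?_⟩
  · have h1 := cf_deriv (G_sol h.sol r) (by fun_prop) (h.gf (Or.inl rfl)) j
    rw [cf_add (by fun_prop) (by fun_prop), cf_add (by fun_prop) (by fun_prop), cf_mul, cf_mul, cf_mul,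
      cf_shift] at h1
    have h2 : I * ((μ : ℂ) * cf (Gf μ ε r 1 φ) (j - 1) - (((j : ℂ) - ((b - r) / 2 : ℝ)) *
        cf (Gf μ ε r 1 φ) j + I * (ε / 2 : ℝ) * cf (Gf μ ε r (-1) φ) j)) = 0 := by
      linear_combination h1 - ((ε / 2 : ℝ) : ℂ) * cf (Gf μ ε r (-1) φ) j * I_mul_I
    exact sub_eq_zero.1 ((mul_eq_zero.1 h2).resolve_left I_ne_zero)
  · have h1 := cf_deriv (H_sol h.sol r) (by fun_prop) (h.gf (Or.inr rfl)) j
    rw [cf_add (by fun_prop) (by fun_prop), cf_add (by fun_prop) (by fun_prop), cf_mul, cf_mul, cf_mul,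
      cf_shift, show j - (-1) = j + 1 by ring] at h1
    have h2 : I * ((μ : ℂ) * cf (Gf μ ε r (-1) φ) (j + 1) - (-((j : ℂ) + ((b + r) / 2 : ℝ)) *
        cf (Gf μ ε r (-1) φ) j - I * (ε / 2 : ℝ) * cf (Gf μ ε r 1 φ) j)) = 0 := by
      linear_combination -h1 + ((ε / 2 : ℝ) : ℂ) * cf (Gf μ ε r 1 φ) j * I_mul_I
    exact sub_eq_zero.1 ((mul_eq_zero.1 h2).resolve_left I_ne_zero)

lemma Per.dec {b μ ε : ℝ} {r : ℤ} {φ : ℝ → ℝ} (h : Per b μ ε r φ) (m : ℕ) :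
    ∃ D, Dec m D (cf (Gf μ ε r 1 φ)) ∧ Dec m D (cf (Gf μ ε r (-1) φ)) := by
  have p1 : Function.Periodic (Gf μ ε r 1 φ) (2 * Real.pi) := h.gf (Or.inl rfl)
  have p2 : Function.Periodic (Gf μ ε r (-1) φ) (2 * Real.pi) := h.gf (Or.inr rfl)
  obtain ⟨C1, hC1⟩ := (p1.isBounded_of_continuous Real.two_pi_pos.ne' (Gf_cont h.sol r 1)).exists_norm_le
  obtain ⟨C2, hC2⟩ := (p2.isBounded_of_continuous Real.two_pi_pos.ne' (Gf_cont h.sol r (-1))).exists_norm_le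
  refine Dec.all h.rec2 (C := max C1 C2) (fun j => ?_) (fun j => ?_) m
  · exact (cf_bound (fun t => hC1 _ (mem_range_self t)) j).trans (le_max_left _ _)
  · exact (cf_bound (fun t => hC2 _ (mem_range_self t)) j).trans (le_max_right _ _)

end PLA79
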