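import Pool.Agent.Helper79.PLA.B

/-!
# Points with identity Poincare map: quantisation and position
-/

set_option autoImplicit false
open Set Filter Topology Complex ComplexConjugate

namespace PLA79
open H535R3

lemma Per_of_ident {b μ ε : ℝ} {r : ℤ} (hall : ∀ x, P b (2 * μ) ε x = x + 2 * Real.pi * r) (x : ℝ) :
    Per b μ ε r (fl b (2 * μ) ε x) := by
  refine ⟨fl_sol _ _ _ _, fl_per (hall x), ?_⟩
  have hpi := Real.pi_pos
  have h1 : Kx b (2 * μ) ε x + Kx b (2 * μ) ε (x + Real.pi) = 0 := by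
    refine K_add_zero (m := r) (hall _) (hall _) ?_
    rw [show (x - (x + Real.pi)) / 2 = -(Real.pi / 2) by ring, Real.sin_neg, Real.sin_pi_div_two]
    norm_num
  have h2 : Kx b (2 * μ) ε x + Kx b (2 * μ) ε (x + Real.pi / 2) = 0 := by
    refine K_add_zero (m := r) (hall _) (hall _) ?_
    rw [show (x - (x + Real.pi / 2)) / 2 = -(Real.pi / 4) by ring, Real.sin_neg, Real.sin_pi_div_four]
    have : (0:ℝ) < Real.sqrt 2 := by positivity
    intro h; linarith
  have h3 : Kx b (2 * μ) ε (x + Real.pi) + Kx b (2 * μ) ε (x + Real.pi / 2) = 0 := by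
    refine K_add_zero (m := r) (hall _) (hall _) ?_
    rw [show (x + Real.pi - (x + Real.pi / 2)) / 2 = Real.pi / 4 by ring, Real.sin_pi_div_four]
    positivity
  have h4 : Kx b (2 * μ) ε x = 0 := by linarith
  exact h4

lemma Dec.mono {m : ℕ} {C C' : ℝ} {g : ℤ → ℂ} (h : Dec m C g) (hC : C ≤ C') : Dec m C' g :=
  fun j => (h j).trans hC

/-- The determinant vanishes for the Fourier coefficients of two solutions. -/
lemma Per.wr {b μ ε : ℝ} {r : ℤ} {φ ψ : ℝ → ℝ} (h1 : Per b μ ε r φ) (h2 : Per b μ ε r ψ) (hb : 0 < b)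
    (j : ℤ) : Wr (cf (Gf μ ε r 1 φ)) (cf (Gf μ ε r (-1) φ)) (cf (Gf μ ε r 1 ψ)) (cf (Gf μ ε r (-1) ψ)) j = 0 := by
  obtain ⟨C1, c1, c2⟩ := h1.dec 1
  obtain ⟨C2, c3, c4⟩ := h2.dec 1
  exact Wr_zero h1.rec2 h2.rec2 (by linarith) (c1.mono (le_max_left C1 C2)) (c2.mono (le_max_left _ _))
    (c3.mono (le_max_right _ _)) (c4.mono (le_max_right _ _)) j

lemma zero_of_cf {G : ℝ → ℂ} (hc : Continuous G) (hper : ∀ t, G (t + 2 * Real.pi) = G t)
    (h : ∀ k, cf G k = 0) (t : ℝ) : G t = 0 := by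
  have h0 : cf G = 0 := funext h
  have h1 := cf_expand hc hper (by rw [h0]; exact summable_zero) t
  simp only [h, zero_mul] at h1
  exact h1.unique hasSum_zero

/-- A combination of the gauge functions of two solutions. -/
noncomputable def cmb (μ ε r s : ℝ) (φ ψ : ℝ → ℝ) (α β : ℂ) (t : ℝ) : ℂ :=
  α * Gf μ ε r s φ t + β * Gf μ ε r s ψ t

lemma cmb_cont {b μ ε : ℝ} {φ ψ : ℝ → ℝ} (h1 : Sol b (2 * μ) ε φ) (h2 : Sol b (2 * μ) ε ψ) (r s : ℝ)
    (α β : ℂ) : Continuous (cmb μ ε r s φ ψ α β) := by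
  have := Gf_cont h1 r s
  have := Gf_cont h2 r s
  unfold cmb; fun_prop

lemma cf_cmb {b μ ε : ℝ} {φ ψ : ℝ → ℝ} (h1 : Sol b (2 * μ) ε φ) (h2 : Sol b (2 * μ) ε ψ) (r s : ℝ)
    (α β : ℂ) (k : ℤ) :
    cf (cmb μ ε r s φ ψ α β) k = α * cf (Gf μ ε r s φ) k + β * cf (Gf μ ε r s ψ) k := by
  have := Gf_cont h1 r s
  have := Gf_cont h2 r s
  unfold cmb
  rw [cf_add (by fun_prop) (by fun_prop), cf_mul, cf_mul]

lemma cmb_per {b μ ε : ℝ} {r : ℤ} {φ ψ : ℝ → ℝ} (h1 : Per b μ ε r φ) (h2 : Per b μ ε r ψ) {s : ℝ}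
    (hs : s = 1 ∨ s = -1) (α β : ℂ) (t : ℝ) :
    cmb μ ε r s φ ψ α β (t + 2 * Real.pi) = cmb μ ε r s φ ψ α β t := by
  rw [cmb, cmb, h1.gf hs, h2.gf hs]

lemma Gf_zero {b μ ε r s x : ℝ} : Gf μ ε r s (fl b (2 * μ) ε x) 0 =
    (Real.exp μ : ℂ) * exp (I * ((s * x / 2 : ℝ) : ℂ)) := by
  rw [Gf, ex, fl_zero, Cc_zero, Real.cos_zero, ofReal_exp, ← exp_add]
  congr 1
  push_cast; ring

/-- **Quantisation.** If the Poincare map is a translation by `2 π r` and `b > 0`, then `b - r` is an even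
integer. -/
theorem quant {b μ ε : ℝ} {r : ℤ} (hμ : 0 < μ) (hb : 0 < b)
    (hall : ∀ x, P b (2 * μ) ε x = x + 2 * Real.pi * r) : ∃ p : ℤ, b = r + 2 * p := by
  by_contra hcon
  push Not at hcon
  set φ := fl b (2 * μ) ε 0
  set ψ := fl b (2 * μ) ε Real.pi
  have h1 : Per b μ ε r φ := Per_of_ident hall 0
  have h2 : Per b μ ε r ψ := Per_of_ident hall Real.pi
  obtain ⟨α, β, hne, e1, e2⟩ := exists_comb (h1.wr h2 hb 0)
  have hrec := Rec2.comb h1.rec2 h2.rec2 α β
  have hz : ∀ j : ℤ, (α * cf (Gf μ ε r 1 φ) j + β * cf (Gf μ ε r 1 ψ) j = 0) ∧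
      (α * cf (Gf μ ε r (-1) φ) j + β * cf (Gf μ ε r (-1) ψ) j = 0) := by
    intro j
    induction j using Int.induction_on with
    | zero => exact ⟨e1, e2⟩
    | succ i ih =>
      refine hrec.up hμ.ne' ih.1 ih.2 ?_
      intro h0
      apply hcon (i + 1)
      push_cast at h0 ⊢
      linarith
    | pred i ih =>
      refine hrec.down hμ.ne' ih.1 ih.2 ?_
      intro h0
      apply hcon (i + 1 - r)
      push_cast at h0 ⊢
      linarith
  have hG : ∀ s : ℝ, s = 1 ∨ s = -1 → cmb μ ε r s φ ψ α β 0 = 0 := by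
    intro s hs
    refine zero_of_cf (cmb_cont h1.sol h2.sol r s α β) (cmb_per h1 h2 hs α β) (fun k => ?_) 0
    rw [cf_cmb h1.sol h2.sol]
    rcases hs with rfl | rfl
    · exact (hz k).1
    · exact (hz k).2
  have a1 := hG 1 (Or.inl rfl)
  have a2 := hG (-1) (Or.inr rfl)
  rw [cmb, Gf_zero, Gf_zero] at a1 a2
  have hI : exp (I * ((1 * Real.pi / 2 : ℝ) : ℂ)) = I := by
    rw [show I * ((1 * Real.pi / 2 : ℝ) : ℂ) = Real.pi / 2 * I by push_cast; ring]
    exact exp_pi_div_two_mul_I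
  have hI2 : exp (I * ((-1 * Real.pi / 2 : ℝ) : ℂ)) = -I := by
    rw [show I * ((-1 * Real.pi / 2 : ℝ) : ℂ) = -Real.pi / 2 * I by push_cast; ring]
    exact exp_neg_pi_div_two_mul_I
  have h0 : ∀ s : ℝ, exp (I * ((s * 0 / 2 : ℝ) : ℂ)) = 1 := by intro s; simp
  rw [hI, h0] at a1
  rw [hI2, h0] at a2
  have hE : (Real.exp μ : ℂ) ≠ 0 := by exact_mod_cast (Real.exp_pos μ).ne'
  have b1 : α + β * I = 0 := by
    have : (Real.exp μ : ℂ) * (α + β * I) = 0 := by linear_combination a1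
    exact (mul_eq_zero.1 this).resolve_left hE
  have b2 : α - β * I = 0 := by
    have : (Real.exp μ : ℂ) * (α - β * I) = 0 := by linear_combination a2
    exact (mul_eq_zero.1 this).resolve_left hE
  have b3 : α = 0 := by linear_combination (b1 + b2) / 2
  have b4 : β * I = 0 := by rw [b3, zero_add] at b1; exact b1
  have b5 : β = 0 := (mul_eq_zero.1 b4).resolve_right I_ne_zero
  rcases hne with h | h
  · exact h b3
  · exact h b5

/-- A line through the origin separates a half plane image from the origin. -/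
lemma half_plane {α β : ℂ} (h : α ≠ 0 ∨ β ≠ 0) {Q : ℝ → ℂ} (hQ : ∀ t, 0 < (Q t).im) :
    ∃ c : ℂ, (∀ t, 0 < (c * (α + β * Q t)).re) ∨ (∀ t, 0 < (c * (α + β * conj (Q t))).re) := by
  by_cases hβ : β = 0
  · have hα : α ≠ 0 := by
      rcases h with h | h
      · exact h
      · exact absurd hβ h
    refine ⟨α⁻¹, Or.inl fun t => ?_⟩
    rw [hβ, zero_mul, add_zero, inv_mul_cancel₀ hα]
    norm_num
  · set z := α / β with hz
    have hαz : α = β * z := by rw [hz]; field_simp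
    rcases le_or_gt 0 z.im with hi | hi
    · refine ⟨-I * β⁻¹, Or.inl fun t => ?_⟩
      have : -I * β⁻¹ * (α + β * Q t) = -I * (z + Q t) := by
        rw [hαz]; field_simp
      rw [this]
      simp only [neg_mul, neg_re, mul_re, I_re, zero_mul, I_im, one_mul, add_im, zero_sub, neg_neg]
      linarith [hQ t]
    · refine ⟨I * β⁻¹, Or.inr fun t => ?_⟩
      have : I * β⁻¹ * (α + β * conj (Q t)) = I * (z + conj (Q t)) := by
        rw [hαz]; field_simp
      rw [this]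
      simp only [mul_re, I_re, zero_mul, I_im, one_mul, add_im, zero_sub, conj_im]
      linarith [hQ t]

end PLA79
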