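import Pool.Agent.Helper79.PLA.C

/-!
# Points with identity Poincare map: the winding argument
-/

set_option autoImplicit false
open Set Filter Topology Complex ComplexConjugate

namespace PLA79
open H535R3

lemma Dec.summable {D : ℝ} {g : ℤ → ℂ} (h : Dec 3 D g) : Summable fun k => ‖g k‖ := by
  have h1 := summables (c := fun k => ‖g k‖) (D := D) (fun k => by rw [abs_of_nonneg (norm_nonneg _)]; exact h k)
  have h2 := summable_c h1
  simpa using h2

/-- Winding for a one-sided Fourier series. -/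
lemma one_sided {F : ℝ → ℂ} (hc : Continuous F) (hper : ∀ t, F (t + 2 * Real.pi) = F t)
    (hs : Summable fun k => ‖cf F k‖) {p : ℤ} (hz : ∀ k < p, cf F k = 0) {l : ℝ → ℂ} (hl : Continuous l)
    (hF : ∀ t, F t = exp (l t)) {N : ℤ} (hN : l (2 * Real.pi) - l 0 = 2 * Real.pi * I * N) : p ≤ N := by
  have hinj : Function.Injective fun m : ℕ => p + (m : ℤ) := fun a b h => by simpa using h
  have hw := winding (h := fun m => cf F (p + m)) (g := fun t => l t - I * p * t) (N := N - p)
    (hs.comp_injective hinj) (hl.sub (by fun_prop)) ?_ ?_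
  · have := hw.1; omega
  · intro t
    have h1 := (cf_expand hc hper hs.of_norm t).tsum_eq
    have h2 : ∑' m : ℕ, cf F (p + m) * exp (I * ((p + m : ℤ) : ℂ) * t) = F t := by
      rw [← h1]
      refine hinj.tsum_eq (f := fun k : ℤ => cf F k * exp (I * k * t)) ?_
      intro k hk
      by_contra hcon
      apply hk
      have : k < p := by
        by_contra hkp
        push Not at hkp
        exact hcon ⟨(k - p).toNat, by simp only; omega⟩
      simp only [hz k this, zero_mul]
    have h3 : ∀ m : ℕ, cf F (p + m) * exp (I * ((p + m : ℤ) : ℂ) * t) =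
        exp (I * p * t) * (cf F (p + m) * exp (I * t) ^ m) := by
      intro m
      rw [← exp_nat_mul, mul_left_comm, ← exp_add]
      congr 2; push_cast; ring
    simp_rw [h3] at h2
    rw [tsum_mul_left] at h2
    rw [exp_sub, ← hF, ← h2, mul_div_cancel_left₀ _ (exp_ne_zero _)]
  · push_cast
    linear_combination hN

/-- The quotient of two solutions lies in the upper half plane. -/
noncomputable def quo (ε : ℝ) (φ ψ : ℝ → ℝ) (t : ℝ) : ℂ :=
  exp ((ε / 2 * (Cc ψ t - Cc φ t) : ℝ) + I * (((ψ t - φ t) / 2 : ℝ) : ℂ))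

lemma quo_G {μ ε r : ℝ} {φ ψ : ℝ → ℝ} (t : ℝ) :
    Gf μ ε r 1 ψ t = Gf μ ε r 1 φ t * quo ε φ ψ t := by
  rw [Gf, Gf, quo, ← exp_add]
  congr 1
  simp only [ex]; push_cast; ring

lemma quo_H {μ ε r : ℝ} {φ ψ : ℝ → ℝ} (t : ℝ) :
    Gf μ ε r (-1) ψ t = Gf μ ε r (-1) φ t * conj (quo ε φ ψ t) := by
  rw [Gf, Gf, quo, ← exp_conj, ← exp_add]
  congr 1
  simp only [ex, map_add, map_mul, conj_ofReal, conj_I]; push_cast; ring

lemma quo_im {b μ ε : ℝ} {φ ψ : ℝ → ℝ} (h1 : Sol b (2 * μ) ε φ) (h2 : Sol b (2 * μ) ε ψ)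
    (h : 0 < Real.sin ((ψ 0 - φ 0) / 2)) (t : ℝ) : 0 < (quo ε φ ψ t).im := by
  rw [quo, mul_comm I, exp_im]
  simp only [add_re, ofReal_re, mul_re, I_re, mul_zero, ofReal_im, I_im, mul_one, sub_self, add_zero,
    add_im, mul_im, zero_add]
  apply mul_pos (Real.exp_pos _)
  rw [mob h2 h1 t]
  exact mul_pos h (Real.exp_pos _)

lemma quo_cont {b μ ε : ℝ} {φ ψ : ℝ → ℝ} (h1 : Sol b (2 * μ) ε φ) (h2 : Sol b (2 * μ) ε ψ) :
    Continuous (quo ε φ ψ) := by
  have c1 := h1.cont
  have c2 := h2.cont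
  have c3 : Continuous (Cc φ) := continuous_iff_continuousAt.2 fun t => (Cc_deriv c1 t).continuousAt
  have c4 : Continuous (Cc ψ) := continuous_iff_continuousAt.2 fun t => (Cc_deriv c2 t).continuousAt
  unfold quo
  fun_prop

lemma quo_per {b μ ε : ℝ} {r : ℤ} {φ ψ : ℝ → ℝ} (h1 : Per b μ ε r φ) (h2 : Per b μ ε r ψ) :
    quo ε φ ψ (2 * Real.pi) = quo ε φ ψ 0 := by
  have a1 := h1.Cc 0
  have a2 := h2.Cc 0
  have a3 := h1.per 0
  have a4 := h2.per 0
  rw [zero_add] at a1 a2 a3 a4
  rw [quo, quo, mul_sub, mul_sub, a1, a2, a3, a4]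
  congr 3
  ring_nf

/-- **Position.** If the Poincare map at `b = p + q` is a translation by `2 π (q - p)`, `p + q ≥ 1` and
`q ≥ 0`, then `p ≤ 0`. -/
theorem position {μ ε : ℝ} {p q : ℤ} (hμ : 0 < μ) (hpq : 1 ≤ p + q) (hq : 0 ≤ q)
    (hall : ∀ x, P ((p:ℝ) + q) (2 * μ) ε x = x + 2 * Real.pi * ((q - p : ℤ) : ℝ)) : p ≤ 0 := by
  set b : ℝ := (p:ℝ) + q with hbd
  set r : ℤ := q - p with hr
  have hb : 0 < b := by
    have : (1:ℝ) ≤ b := by rw [hbd]; exact_mod_cast hpq
    linarith
  have ep : (b - r) / 2 = p := by rw [hbd, hr]; push_cast; ring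
  have eq' : (b + r) / 2 = q := by rw [hbd, hr]; push_cast; ring
  set φ := fl b (2 * μ) ε 0 with hφ
  set ψ := fl b (2 * μ) ε Real.pi with hψ
  have h1 : Per b μ ε r φ := Per_of_ident hall 0
  have h2 : Per b μ ε r ψ := Per_of_ident hall Real.pi
  obtain ⟨α, β, hne, e1, e2⟩ := exists_comb (h1.wr h2 hb (-q))
  have hrec := Rec2.comb h1.rec2 h2.rec2 α β
  rw [ep, eq'] at hrec
  set g : ℤ → ℂ := fun j => α * cf (Gf μ ε r 1 φ) j + β * cf (Gf μ ε r 1 ψ) j with hg
  set h : ℤ → ℂ := fun j => α * cf (Gf μ ε r (-1) φ) j + β * cf (Gf μ ε r (-1) ψ) j with hh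
  have hdown : ∀ n : ℕ, g (-q - n) = 0 ∧ h (-q - n) = 0 := by
    intro n
    induction n with
    | zero => simpa using ⟨e1, e2⟩
    | succ n ih =>
      have h3 := hrec.down hμ.ne' ih.1 ih.2 (by
        push_cast
        have : (0:ℝ) ≤ n := n.cast_nonneg
        intro h0; linarith)
      rw [show -q - (n:ℤ) - 1 = -q - ((n + 1 : ℕ) : ℤ) by push_cast; ring] at h3
      exact h3
  have hup : ∀ n : ℕ, -q + n < p → g (-q + n) = 0 ∧ h (-q + n) = 0 := by
    intro n
    induction n with
    | zero => intro _; simpa using ⟨e1, e2⟩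
    | succ n ih =>
      intro hn
      have ih' := ih (by push_cast at hn; omega)
      have h3 := hrec.up hμ.ne' ih'.1 ih'.2 (by
        have h4 : ((-q + ((n + 1 : ℕ) : ℤ) : ℤ) : ℝ) < p := by exact_mod_cast hn
        push_cast at h4 ⊢
        intro h0; linarith)
      rw [show -q + (n:ℤ) + 1 = -q + ((n + 1 : ℕ) : ℤ) by push_cast; ring] at h3
      exact h3
  have hlow : ∀ j < p, g j = 0 ∧ h j = 0 := by
    intro j hj
    rcases le_total j (-q) with hjq | hjq
    · have := hdown (-q - j).toNat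
      rwa [show -q - (((-q - j).toNat : ℕ) : ℤ) = j by omega] at this
    · have := hup (j + q).toNat (by omega)
      rwa [show -q + (((j + q).toNat : ℕ) : ℤ) = j by omega] at this
  have hhp : h p = 0 := by
    have h3 := hlow (p - 1) (by omega)
    have := hrec.up_h hμ.ne' h3.1 h3.2
    rwa [sub_add_cancel] at this
  have hlowh : ∀ j < p + 1, h j = 0 := by
    intro j hj
    rcases lt_or_eq_of_le (Int.lt_add_one_iff.1 hj) with h3 | h3
    · exact (hlow j h3).2
    · rw [h3]; exact hhp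
  -- summability
  have hsum : ∀ s : ℝ, s = 1 ∨ s = -1 → Summable fun k => ‖cf (cmb μ ε r s φ ψ α β) k‖ := by
    intro s hs
    obtain ⟨D1, a1, a2⟩ := h1.dec 3
    obtain ⟨D2, a3, a4⟩ := h2.dec 3
    have key : ∀ {u v : ℤ → ℂ} {D D' : ℝ}, Dec 3 D u → Dec 3 D' v → Summable fun k => ‖α * u k + β * v k‖ := by
      intro u v D D' hu hv
      refine Summable.of_nonneg_of_le (fun _ => norm_nonneg _) (fun k => norm_add_le _ _)
        (Summable.add ?_ ?_)
      · simp_rw [norm_mul]; exact hu.summable.mul_left _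
      · simp_rw [norm_mul]; exact hv.summable.mul_left _
    simp_rw [cf_cmb h1.sol h2.sol]
    rcases hs with rfl | rfl
    · exact key a1 a3
    · exact key a2 a4
  have hQ := quo_im h1.sol h2.sol (by
    rw [hφ, hψ, fl_zero, fl_zero, sub_zero, Real.sin_pi_div_two]; exact one_pos)
  have hQc := quo_cont h1.sol h2.sol
  have hQp := quo_per h1 h2
  have a1 := h1.Cc 0
  have a3 := h1.per 0
  rw [zero_add] at a1 a3
  obtain ⟨c, hc | hc⟩ := half_plane hne hQ
  · -- first case
    have hc0 : c ≠ 0 := by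
      rintro rfl
      have := hc 0
      rw [zero_mul, zero_re] at this
      exact lt_irrefl _ this
    have hsp : ∀ t, c * (α + β * quo ε φ ψ t) ∈ slitPlane := fun t => Or.inl (hc t)
    have hlc : Continuous fun t => log (c * (α + β * quo ε φ ψ t)) :=
      (continuous_const.mul (continuous_const.add (continuous_const.mul hQc))).clog hsp
    have hw := one_sided (F := cmb μ ε r 1 φ ψ α β) (p := p) (N := 0) (cmb_cont h1.sol h2.sol r 1 α β)
      (cmb_per h1 h2 (Or.inl rfl) α β) (hsum 1 (Or.inl rfl))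
      (fun k hk => by rw [cf_cmb h1.sol h2.sol]; exact (hlow k hk).1)
      (l := fun t => ex μ ε r 1 φ t + log (c * (α + β * quo ε φ ψ t)) - log c)
      (((ex_cont h1.sol r 1).add hlc).sub continuous_const) ?_ ?_
    · exact hw
    · intro t
      rw [exp_sub, exp_add, exp_log (slitPlane_ne_zero (hsp t)), exp_log hc0, cmb, quo_G (ψ := ψ) (φ := φ) t]
      change _ = Gf μ ε r 1 φ t * _ / c
      field_simp
    · simp only [hQp]
      rw [ex, ex, Real.cos_two_pi, Real.cos_zero, a1, a3]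
      push_cast; ring
  · -- second case
    exfalso
    have hc0 : c ≠ 0 := by
      rintro rfl
      have := hc 0
      rw [zero_mul, zero_re] at this
      exact lt_irrefl _ this
    have hsp : ∀ t, c * (α + β * conj (quo ε φ ψ t)) ∈ slitPlane := fun t => Or.inl (hc t)
    have hlc : Continuous fun t => log (c * (α + β * conj (quo ε φ ψ t))) :=
      (continuous_const.mul (continuous_const.add (continuous_const.mul
        (Complex.continuous_conj.comp hQc)))).clog hsp
    have hw := one_sided (F := cmb μ ε r (-1) φ ψ α β) (p := p + 1) (N := -r) (cmb_cont h1.sol h2.sol r (-1) α β)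
      (cmb_per h1 h2 (Or.inr rfl) α β) (hsum (-1) (Or.inr rfl))
      (fun k hk => by rw [cf_cmb h1.sol h2.sol]; exact hlowh k hk)
      (l := fun t => ex μ ε r (-1) φ t + log (c * (α + β * conj (quo ε φ ψ t))) - log c)
      (((ex_cont h1.sol r (-1)).add hlc).sub continuous_const) ?_ ?_
    · rw [hr] at hw; omega
    · intro t
      rw [exp_sub, exp_add, exp_log (slitPlane_ne_zero (hsp t)), exp_log hc0, cmb, quo_H (ψ := ψ) (φ := φ) t]
      change _ = Gf μ ε r (-1) φ t * _ / c
      field_simp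
    · simp only [hQp]
      rw [ex, ex, Real.cos_two_pi, Real.cos_zero, a1, a3]
      push_cast; ring

end PLA79
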