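import Pool.Agent.Helper79.PLA.D

/-!
# Adjacencies lie on the axis, in scaled coordinates
-/

set_option autoImplicit false
open Set Filter Topology

namespace PLA79
open H535R3

/-- If the horizontal slice of the locked set is a single point, then the Poincare map is a translation. -/
lemma ident_of_slice {r : ℤ} {ε b a : ℝ} (hm : (b, a) ∈ Ls r ε) (h : ∀ b', (b', a) ∈ Ls r ε → b' = b)
    (x : ℝ) : P b a ε x = x + 2 * Real.pi * r := by
  obtain ⟨x0, hx0⟩ := hm
  simp only at hx0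
  have hc : ∀ y, Continuous fun b' : ℝ => P b' a ε y := fun y =>
    continuous_P.comp (f := fun b' : ℝ => (b', a, ε, y)) (by fun_prop)
  rcases lt_trichotomy (P b a ε x) (x + 2 * Real.pi * r) with h1 | h1 | h1
  · exfalso
    have h2 : ∀ᶠ b' in 𝓝[>] b, P b' a ε x < x + 2 * Real.pi * r :=
      ((hc x).continuousAt.eventually (gt_mem_nhds h1)).filter_mono nhdsWithin_le_nhds
    obtain ⟨b', h3, h4⟩ := (h2.and self_mem_nhdsWithin).exists
    have h4' : b < b' := h4
    have h5 : (b', a) ∈ Ls r ε := mem_Ls_of (q := (b', a)) (u := x0) (v := x)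
      (by have := P_lt_of_b (a := a) (ε := ε) (x := x0) h4'; linarith) h3.le
    exact h4'.ne' (h b' h5)
  · exact h1
  · exfalso
    have h2 : ∀ᶠ b' in 𝓝[<] b, x + 2 * Real.pi * r < P b' a ε x :=
      ((hc x).continuousAt.eventually (lt_mem_nhds h1)).filter_mono nhdsWithin_le_nhds
    obtain ⟨b', h3, h4⟩ := (h2.and self_mem_nhdsWithin).exists
    have h4' : b' < b := h4
    have h5 : (b', a) ∈ Ls r ε := mem_Ls_of (q := (b', a)) (u := x) (v := x0) h3.le
      (by have := P_lt_of_b (a := a) (ε := ε) (x := x0) h4'; linarith)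
    exact h4'.ne (h b' h5)

/-- `ρ = 0` on the line `b = 0`. -/
lemma zero_mem (a ε : ℝ) : ((0:ℝ), a) ∈ Ls 0 ε := by
  obtain ⟨y, hy⟩ := zero_b a ε
  set φ := fl 0 a ε y with hφd
  have hφ : Sol 0 a ε φ := fl_sol 0 a ε y
  have hψ : Sol 0 a ε (fun t => -(φ (t + Real.pi))) := by
    intro t
    have h1 := ((hφ (t + Real.pi)).comp_add_const t Real.pi).neg
    refine h1.congr_deriv ?_
    simp only [Real.sin_neg, Real.cos_add_pi]; ring
  have h3 := congrFun hψ.eq_fl (2 * Real.pi)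
  simp only [zero_add] at h3
  refine mem_Ls_of (q := ((0:ℝ), a)) (u := -(φ Real.pi)) (v := y) ?_ (by simpa using hy)
  simp only [Int.cast_zero, mul_zero, add_zero]
  rw [P, ← h3, neg_le_neg_iff, add_comm, hφd, fl_shift]
  rcases hy.lt_or_eq with h | h
  · exact (fl_mono 0 a ε h Real.pi).le
  · rw [h]

lemma Ls_neg_a {r : ℤ} {b a ε : ℝ} (h : (b, a) ∈ Ls r ε) : (b, -a) ∈ Ls r ε := lock_neg_a h

/-- Adjacencies of `L_r` lie on the axis `b = r`; the case `r ≥ 1`, `a > 0`. -/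
lemma core_pos {r : ℕ} (hr : 1 ≤ r) {ε b a : ℝ} (hε : 0 < ε) (ha : 0 < a)
    (hm : (b, a) ∈ Ls r ε) (h : ∀ b', (b', a) ∈ Ls r ε → b' = b) : b = r := by
  have hall := ident_of_slice hm h
  have h1 : (r:ℝ) - 1 < b := strictly_right hε hr ha.le ⟨0, by simpa using hall 0⟩
  have hr1 : (1:ℝ) ≤ r := by exact_mod_cast hr
  have e2 : 2 * (a / 2) = a := by ring
  have hall' : ∀ x, P b (2 * (a / 2)) ε x = x + 2 * Real.pi * ((r:ℤ) : ℝ) := by
    intro x; rw [e2]; exact hall x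
  obtain ⟨p, hp⟩ := quant (by positivity) (by linarith) hall'
  have hp0 : 0 ≤ p := by
    by_contra hc
    have h2 : p ≤ -1 := by omega
    have h3 : (p:ℝ) ≤ -1 := by exact_mod_cast h2
    push_cast at hp
    linarith
  have hb : b = (p:ℝ) + ((p + r : ℤ) : ℝ) := by rw [hp]; push_cast; ring
  have h4 : p ≤ 0 := by
    refine position (μ := a / 2) (ε := ε) (p := p) (q := p + r) (by positivity) (by omega) (by omega) ?_
    intro x
    rw [← hb, hall', add_sub_cancel_left]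
  have h5 : p = 0 := le_antisymm h4 hp0
  rw [hp, h5]; push_cast; ring

lemma core_pos' {r : ℕ} {ε b a : ℝ} (hε : 0 < ε) (ha : a ≠ 0)
    (hm : (b, a) ∈ Ls r ε) (h : ∀ b', (b', a) ∈ Ls r ε → b' = b) : b = r := by
  rcases Nat.eq_zero_or_pos r with h0 | h0
  · subst h0
    have := h 0 (by exact_mod_cast zero_mem a ε)
    rw [← this]; simp
  · rcases lt_or_gt_of_ne ha with h1 | h1
    · refine core_pos h0 hε (a := -a) (by linarith) (Ls_neg_a hm) fun b' hb' => h b' ?_
      have := Ls_neg_a hb'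
      rwa [neg_neg] at this
    · exact core_pos h0 hε h1 hm h

/-- Adjacencies of `L_r` lie on the axis `b = r`. -/
theorem core (r : ℤ) {ε b a : ℝ} (hε : 0 < ε) (ha : a ≠ 0)
    (hm : (b, a) ∈ Ls r ε) (h : ∀ b', (b', a) ∈ Ls r ε → b' = b) : b = r := by
  rcases le_total 0 r with hr | hr
  · obtain ⟨n, rfl⟩ := Int.eq_ofNat_of_zero_le hr
    rw [core_pos' hε ha hm h]; simp
  · obtain ⟨n, hn⟩ := Int.eq_ofNat_of_zero_le (neg_nonneg.2 hr)
    have h1 : -b = (n:ℝ) := by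
      refine core_pos' hε ha (by rw [← hn]; exact Ls_neg hm) fun b' hb' => ?_
      rw [← hn] at hb'
      have h2 := Ls_neg hb'
      rw [neg_neg] at h2
      linarith [h _ h2]
    have h2 : ((-r : ℤ) : ℝ) = n := by rw [hn]; simp
    push_cast at h2
    linarith

/-- The locked part of the axis is upward closed. -/
theorem ray (r : ℤ) {ε a a' : ℝ} (hε : 0 < ε) (ha : 0 ≤ a) (haa : a ≤ a') (h : ((r:ℝ), a) ∈ Ls r ε) :
    ((r:ℝ), a') ∈ Ls r ε := by
  have key : ∀ n : ℕ, (((n:ℝ) + 1, a) : ℝ × ℝ) ∈ Ls ((n:ℤ) + 1) ε →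
      (((n:ℝ) + 1, a') : ℝ × ℝ) ∈ Ls ((n:ℤ) + 1) ε := by
    intro n hn
    rw [axis_iff n ha hε] at hn
    rw [axis_iff n (ha.trans haa) hε]
    exact hn.trans haa
  rcases lt_trichotomy r 0 with hr | hr | hr
  · obtain ⟨n, hn⟩ : ∃ n : ℕ, r = -((n:ℤ) + 1) := ⟨(-r - 1).toNat, by omega⟩
    subst hn
    have h1 := Ls_neg h
    push_cast at h1 ⊢
    rw [neg_neg, neg_neg] at h1
    have h2 := Ls_neg (key n h1)
    exact h2
  · subst hr
    rw [Int.cast_zero]
    exact zero_mem a' ε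
  · obtain ⟨n, hn⟩ : ∃ n : ℕ, r = (n:ℤ) + 1 := ⟨(r - 1).toNat, by omega⟩
    subst hn
    push_cast at h ⊢
    exact key n h

end PLA79
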